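import Pool.Agent.H795Z.GM.Main

set_option autoImplicit false

namespace Pool.Agent.Results.MP_69d199_co.AOrder

open Pool.Agent.H795Z.GM

/-- `N(t, r) = Θ(t + r √t)`: there are absolute constants `c, C > 0` such that for all `t ≥ 5` and
`r ≥ 1` the maximum defining `N(t, r)` is over a bounded set and
`c (t + r √t) ≤ N(t, r) ≤ C (t + r √t)`. -/
theorem result : ∃ c C : ℝ, 0 < c ∧ 0 < C ∧ ∀ t r : ℕ, 5 ≤ t → 1 ≤ r →
    BddAbove (sizes t r) ∧ c * (t + r * √t) ≤ N t r ∧ (N t r : ℝ) ≤ C * (t + r * √t) :=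
  main

end Pool.Agent.Results.MP_69d199_co.AOrder
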